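import Pool.Agent.Y434.SK.Gen

set_option autoImplicit false

/-!
Idempotent Schunck classes that are not D-classes, for every prime `p ≥ 5` with `p ≡ 2 (mod 3)`.
-/

namespace Pool.Agent.Results.MP_d8b6f8_al.ArbitrarilyLarge

open Pool.Agent.Results.MP_d8b6f8_al.NotDClass (GroupClass IsPrim IsSchunck prodClass IsMaxSub
  IsProj IsDClass)
open Pool.Agent.Y434.SK

/-- (1) Let `p ≥ 5` be a prime with `p ≡ 2 (mod 3)`. Every Schunck class `Y` with `Y² = Y` that
contains the dihedral groups of orders `6` and `2p` contains a Schunck class `X` with `X² = X`, with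
the same groups of order prime to `p`, that is not a D-class.
(2) For every `N` there are continuum many Schunck classes `X` with `X² = X` that contain all finite
soluble groups of order at most `N` and are not D-classes. -/
theorem result :
    (∀ p : ℕ, p.Prime → 5 ≤ p → p % 3 = 2 →
      ∀ Y : GroupClass, IsSchunck Y → (∀ (G : Type) [Group G], prodClass Y Y G ↔ Y G) →
        Y (DihedralGroup 3) → Y (DihedralGroup p) →
        ∃ X : GroupClass, (∀ (G : Type) [Group G], X G → Y G) ∧
          (∀ (G : Type) [Group G], Y G → ¬ p ∣ Nat.card G → X G) ∧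
          IsSchunck X ∧ (∀ (G : Type) [Group G], prodClass X X G ↔ X G) ∧ ¬ IsDClass X) ∧
    ∀ N : ℕ, ∃ Φ : Set ℕ → GroupClass, Function.Injective Φ ∧ ∀ S, IsSchunck (Φ S) ∧
      (∀ (G : Type) [Group G], prodClass (Φ S) (Φ S) G ↔ Φ S G) ∧ ¬ IsDClass (Φ S) ∧
      ∀ (G : Type) [Group G], Finite G → Group.IsSolvable G → Nat.card G ≤ N → Φ S G := by
  refine ⟨?_, fun N => ?_⟩
  · intro p hp h5 h2 Y hY hYY hd3 hdp
    haveI : Good p := ⟨hp, h5, h2⟩
    refine ⟨inter (XX p) Y, fun G _ h => h.2, fun G _ h hc => ?_, main hY hYY hd3 hdp⟩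
    haveI := (hY.soluble G h).1
    exact ⟨XX_of_card (hY.soluble G h).2 hc, h⟩
  · obtain ⟨p, hpN, hg⟩ := exists_good N
    haveI := hg
    have h5 := hg.five
    refine ⟨Phi p (2 * p), Phi_injective (by omega), fun S => ?_⟩
    obtain ⟨m1, m2, m3⟩ := main (p := p) (isSchunck_PP (prs (2 * p) S)) (prod_PP _)
      (PP_of_small inferInstance fun q hq hp hd => by
        rw [DihedralGroup.nat_card] at hd
        have := Nat.le_of_dvd (by norm_num) hd
        have := prs_large hq
        omega)
      (by
        haveI : NeZero p := ⟨by omega⟩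
        refine PP_of_small solv_dih fun q hq hp hd => ?_
        rw [DihedralGroup.nat_card] at hd
        have := Nat.le_of_dvd (by omega) hd
        have := prs_large hq
        omega)
    refine ⟨m1, m2, m3, fun G _ hf hs hc => ?_⟩
    haveI := hf
    have hpos : 0 < Nat.card G := Nat.card_pos
    refine ⟨XX_of_card hs fun hd => ?_, PP_of_small hs fun q hq hp hd => ?_⟩
    · have := Nat.le_of_dvd hpos hd
      omega
    · have := Nat.le_of_dvd hpos hd
      have := prs_large hq
      omega

end Pool.Agent.Results.MP_d8b6f8_al.ArbitrarilyLarge
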